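import Pool.Agent.Q28.BP.Rs
import Pool.Agent.Q28.BP.Both
import Pool.Agent.Q235.FE.MomR

/-!
# The moments of the truncated central values of the quadratic twists by integers with few changed digits

Let `π` be a cuspidal representation of `PGL₂` which satisfies the conjecture of Ramanujan, for instance the one of a
holomorphic newform (Deligne), with the eigenvalues `lam p`, real numbers with `|lam p| ≤ 2`, at the primes outside `S`. For
an integer `D`

  `P_x(D) = ∏ (1 - lam p χ_D(p) p^{-1/2} + χ_D(p)² p^{-1})⁻¹`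

over the primes `β² < p ≤ x`, `p ∉ S`, is the Euler product of `L(π ⊗ χ_D, s)` at `s = 1/2`, truncated at `x`.

Let `N₀` be an ARBITRARY integer with at most `K` digits in base `β`, and let `m` arise from `N₀` by changing `r ≤ K / 2` of
its digits, to prescribed digits different from the old ones. We average over the choices of the `r` positions for which `m`
is not divisible by the square of any prime `β² < p ≤ x` (the free choices). For ALL real `κ`, positive or negative, and all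
`x ≤ c √r` we show:

1. the average of `P_x(m)^κ` has the exact order `exp (∑ (κ (κ + 1) (lam p)² / 2 - κ) / p)`, uniformly in `π`;
2. for the newforms of weight two it is `(log x)^{κ(κ-1)/2 + o(1)}`, the order conjectured for the moments of the central
   values of the quadratic twists (Keating and Snaith, orthogonal families).

So the first moment is `(log x)^{o(1)}`, while the typical value is `(log x)^{-1/2 + o(1)}` (`FewDigitTwists`).
-/

set_option autoImplicit false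

namespace Pool.Agent.Results.MP_17f4cb_nt.FewDigitMoments

open Pool.Agent.Q235.FD (change digit)
open Pool.Agent.Q235.FE (primesBetween freeChoices)
open Filter Topology CongruenceSubgroup UpperHalfPlane
open scoped MatrixGroups Classical
open Finset

/-- The primes `β² < p ≤ x` not in `S`. -/
noncomputable def primes (β : ℕ) (S : Finset ℕ) (x : ℕ) : Finset ℕ := (primesBetween β x).filter fun p => p ∉ S

/-- The truncated central value `P_x(D)`; the values of the character are written as symbols of Jacobi. -/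
noncomputable def value (β : ℕ) (lam : ℕ → ℝ) (S : Finset ℕ) (x : ℕ) (D : ℤ) : ℝ :=
  ∏ p ∈ primes β S x,
    (1 - lam p * ((jacobiSym D p : ℝ) / Real.sqrt p) + ((jacobiSym D p : ℝ) / Real.sqrt p) ^ 2)⁻¹

/-- The average of `P_x(t m)^κ` over the free choices. -/
noncomputable def moment (β K r N₀ : ℕ) (g : ℕ → ℕ) (lam : ℕ → ℝ) (S : Finset ℕ) (x : ℕ) (t : ℤ) (κ : ℝ) : ℝ :=
  (∑ C ∈ freeChoices β K r N₀ g x, value β lam S x (t * (change β K N₀ g C : ℕ)) ^ κ) /
    (freeChoices β K r N₀ g x).card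

/-- `∑ (κ (κ + 1) (lam p)² / 2 - κ) / p` over the primes `β² < p ≤ x`, `p ∉ S`. -/
noncomputable def exponent (β : ℕ) (lam : ℕ → ℝ) (S : Finset ℕ) (x : ℕ) (κ : ℝ) : ℝ :=
  ∑ p ∈ primes β S x, (κ * (κ + 1) * lam p ^ 2 / 2 - κ) / p

/-- The `n`-th Fourier coefficient of `f`. -/
noncomputable def coef {N : ℕ} (f : CuspForm (Gamma0 N : Subgroup (GL (Fin 2) ℝ)) 2) (n : ℕ) : ℂ :=
  (qExpansion 1 f).coeff n

/-- `f ∈ S_2(Γ₀(N))` is a normalised newform with trivial nebentypus: the Fourier coefficients `c(n)` are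
real with `c(1) = 1`, they satisfy the Hecke relations `c(mn) = c(m) c(n)` for coprime `m`, `n` and
`c(p^(j+2)) = c(p) c(p^(j+1)) - p c(p^j)` (without the last term if `p ∣ N`), `|c(p)| ≤ 2 √p` for `p ∤ N` and
`|c(p)| ≤ 1` for `p ∣ N`.  (All newforms of weight two have these properties.) -/
structure IsNewform {N : ℕ} (f : CuspForm (Gamma0 N : Subgroup (GL (Fin 2) ℝ)) 2) : Prop where
  one : coef f 1 = 1
  real : ∀ n, (coef f n).im = 0
  mul : ∀ m n : ℕ, Nat.Coprime m n → coef f (m * n) = coef f m * coef f n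
  pow : ∀ p j : ℕ, p.Prime → coef f (p ^ (j + 2)) = coef f p * coef f (p ^ (j + 1)) -
      (if p ∣ N then 0 else (p : ℂ) * coef f (p ^ j))
  good : ∀ p : ℕ, p.Prime → ¬ p ∣ N → ‖coef f p‖ ≤ 2 * Real.sqrt p
  bad : ∀ p : ℕ, p.Prime → p ∣ N → ‖coef f p‖ ≤ 1

/-- The eigenvalues `c(p) / √p`. -/
noncomputable def eigenvalue {N : ℕ} (f : CuspForm (Gamma0 N : Subgroup (GL (Fin 2) ℝ)) 2) (p : ℕ) : ℝ :=
  (coef f p).re / Real.sqrt p

theorem value_pos {lam : ℕ → ℝ} {S : Finset ℕ} (h : ∀ p : ℕ, p.Prime → p ∉ S → |lam p| ≤ 2) (D : ℤ)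
    {p : ℕ} (hp : p.Prime) (h5 : 5 ≤ p) (hpS : p ∉ S) :
    0 < 1 - lam p * ((jacobiSym D p : ℝ) / Real.sqrt p) + ((jacobiSym D p : ℝ) / Real.sqrt p) ^ 2 := by
  have : Fact p.Prime := ⟨hp⟩
  have h1 := h p hp hpS
  have hp0 : (0 : ℝ) < p := by exact_mod_cast hp.pos
  have h4 : (4 : ℝ) ≤ p := by exact_mod_cast (by omega : 4 ≤ p)
  have hs : 0 < Real.sqrt p := Real.sqrt_pos.2 hp0
  have hs2 : 2 ≤ Real.sqrt p := by
    rw [show (2 : ℝ) = Real.sqrt 4 by
      rw [show (4 : ℝ) = 2 ^ 2 by norm_num, Real.sqrt_sq (by norm_num)]]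
    exact Real.sqrt_le_sqrt h4
  have hz : |(jacobiSym D p : ℝ) / Real.sqrt p| ≤ 1 / 2 := by
    rw [Pool.Agent.Q28.BP.jac_ch, abs_div, abs_of_pos hs, div_le_div_iff₀ hs (by norm_num)]
    have := Pool.Agent.Q28.BP.ch_abs (D : ZMod p)
    nlinarith
  set z := (jacobiSym D p : ℝ) / Real.sqrt p
  have h2 : |lam p * z| ≤ 2 * |z| := by
    rw [abs_mul]
    exact mul_le_mul_of_nonneg_right h1 (abs_nonneg _)
  have h3 : lam p * z ≤ 2 * |z| := (le_abs_self _).trans h2
  have h6 : z ^ 2 = |z| ^ 2 := (sq_abs z).symm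
  have h7 : 0 < (1 - |z|) ^ 2 := by
    have : 0 < 1 - |z| := by linarith
    positivity
  rw [h6]
  nlinarith

/-- **The moments of the truncated central values of the twists by integers with few changed digits.** Let `β ≥ 2` be a
base and `κ` a real number. There are `c, C > 0` such that:

1. for all real numbers `lam p` with `|lam p| ≤ 2` for the primes `p` outside a finite set `S`, all `x ≥ 1`, all integers
   `N₀` with at most `K` digits in base `β`, all `r ≤ K / 2` with `x ≤ c √r` and all prescribed new digits `g j` (different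
   from the digits of `N₀`) the average of `P_x(m)^κ` over the free choices is between `C⁻¹` and `C` times
   `exp (∑ (κ (κ + 1) (lam p)² / 2 - κ) / p)`, and the same for `-m`;
2. for every newform `f` of weight two and `ε > 0` there is `X₀` such that in the same situation, for `x ≥ X₀`, this average
   is between `(log x)^(κ (κ - 1) / 2 - ε)` and `(log x)^(κ (κ - 1) / 2 + ε)`. -/
theorem result (β : ℕ) (hβ : 2 ≤ β) (κ : ℝ) : ∃ c C : ℝ, 0 < c ∧ 0 < C ∧
    (∀ (lam : ℕ → ℝ) (S : Finset ℕ), (∀ p : ℕ, p.Prime → p ∉ S → |lam p| ≤ 2) →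
      ∀ (x K r N₀ : ℕ) (g : ℕ → ℕ), 1 ≤ x → 2 * r ≤ K → (x : ℝ) ≤ c * Real.sqrt r → N₀ < β ^ K →
      (∀ j, g j < β ∧ g j ≠ digit β j N₀) → ∀ t : ℤ, (t = 1 ∨ t = -1) →
        0 < (freeChoices β K r N₀ g x).card ∧
        C⁻¹ * Real.exp (exponent β lam S x κ) ≤ moment β K r N₀ g lam S x t κ ∧
        moment β K r N₀ g lam S x t κ ≤ C * Real.exp (exponent β lam S x κ)) ∧
    ∀ (N : ℕ) [NeZero N] (f : CuspForm (Gamma0 N : Subgroup (GL (Fin 2) ℝ)) 2), IsNewform f →
      ∀ ε : ℝ, 0 < ε → ∃ X₀ : ℕ,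
      ∀ (x K r N₀ : ℕ) (g : ℕ → ℕ), X₀ ≤ x → 2 * r ≤ K → (x : ℝ) ≤ c * Real.sqrt r → N₀ < β ^ K →
      (∀ j, g j < β ∧ g j ≠ digit β j N₀) → ∀ t : ℤ, (t = 1 ∨ t = -1) →
        Real.log x ^ (κ * (κ - 1) / 2 - ε) ≤ moment β K r N₀ g (eigenvalue f) N.primeFactors x t κ ∧
        moment β K r N₀ g (eigenvalue f) N.primeFactors x t κ ≤ Real.log x ^ (κ * (κ - 1) / 2 + ε) := by
  obtain ⟨c, C, hc, hC, H⟩ := Pool.Agent.Q235.FE.real_moments β hβ κ
  have main : ∀ (lam : ℕ → ℝ) (S : Finset ℕ), (∀ p : ℕ, p.Prime → p ∉ S → |lam p| ≤ 2) →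
      ∀ (x K r N₀ : ℕ) (g : ℕ → ℕ), 1 ≤ x → 2 * r ≤ K → (x : ℝ) ≤ c * Real.sqrt r → N₀ < β ^ K →
      (∀ j, g j < β ∧ g j ≠ digit β j N₀) → ∀ t : ℤ, (t = 1 ∨ t = -1) →
        0 < (freeChoices β K r N₀ g x).card ∧
        C⁻¹ * Real.exp (exponent β lam S x κ) ≤ moment β K r N₀ g lam S x t κ ∧
        moment β K r N₀ g lam S x t κ ≤ C * Real.exp (exponent β lam S x κ) := by
    intro lam S h x K r N₀ g hx hrK hxr hN hg t ht
    obtain ⟨u, hu⟩ : ∃ u : ℕ → ℝ, u = fun p => if p.Prime ∧ p ∉ S then lam p else 0 := ⟨_, rfl⟩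
    obtain ⟨v, hv⟩ : ∃ v : ℕ → ℝ, v = fun p => if p.Prime ∧ p ∉ S then 1 else 0 := ⟨_, rfl⟩
    obtain ⟨h0, h1, h2⟩ := H x K r N₀ g hx hrK hxr hN hg t ht u v (fun p => by
      rw [hu, hv]
      beta_reduce
      split_ifs with hp
      · exact (h p hp.1 hp.2).trans (by norm_num)
      · norm_num) (fun p => by
      rw [hv]
      beta_reduce
      split_ifs
      · exact Or.inr rfl
      · exact Or.inl rfl)
    have hpr : ∀ p ∈ primesBetween β x, p.Prime ∧ 5 ≤ p := fun p hp =>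
      ⟨(Pool.Agent.Q235.FE.mem_between hβ hp).1, (Pool.Agent.Q235.FE.mem_between hβ hp).2.1⟩
    have e1 : ∑ p ∈ primesBetween β x, (κ * (κ + 1) * (u p) ^ 2 / 2 - κ * v p) / (p : ℝ) = exponent β lam S x κ := by
      unfold exponent primes
      rw [sum_filter]
      refine sum_congr rfl fun p hp => ?_
      rw [hu, hv]
      beta_reduce
      by_cases hpS : p ∈ S
      · rw [if_neg fun h => h.2 hpS, if_neg fun h => h.2 hpS, if_neg fun h => h hpS]
        ring
      · rw [if_pos ⟨(hpr p hp).1, hpS⟩, if_pos ⟨(hpr p hp).1, hpS⟩, if_pos hpS, mul_one]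
    have e2 : ∀ C, ∏ p ∈ primesBetween β x,
          (1 - u p * ((jacobiSym (t * (change β K N₀ g C : ℕ)) p : ℝ) / Real.sqrt p) +
            v p * ((jacobiSym (t * (change β K N₀ g C : ℕ)) p : ℝ) / Real.sqrt p) ^ 2) ^ (-κ) =
        value β lam S x (t * (change β K N₀ g C : ℕ)) ^ κ := by
      intro C
      unfold value
      have hpos : ∀ p ∈ primes β S x, 0 < 1 - lam p * ((jacobiSym (t * (change β K N₀ g C : ℕ)) p : ℝ) / Real.sqrt p) +
          ((jacobiSym (t * (change β K N₀ g C : ℕ)) p : ℝ) / Real.sqrt p) ^ 2 := by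
        intro p hp
        unfold primes at hp
        obtain ⟨g1, g2⟩ := mem_filter.1 hp
        exact value_pos h _ (hpr p g1).1 (hpr p g1).2 g2
      rw [← Real.finsetProd_rpow _ _ (fun p hp => (inv_pos.2 (hpos p hp)).le)]
      have e3 : ∏ p ∈ primes β S x, ((1 - lam p * ((jacobiSym (t * (change β K N₀ g C : ℕ)) p : ℝ) / Real.sqrt p) +
          ((jacobiSym (t * (change β K N₀ g C : ℕ)) p : ℝ) / Real.sqrt p) ^ 2)⁻¹) ^ κ =
          ∏ p ∈ primes β S x, (1 - lam p * ((jacobiSym (t * (change β K N₀ g C : ℕ)) p : ℝ) / Real.sqrt p) +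
          ((jacobiSym (t * (change β K N₀ g C : ℕ)) p : ℝ) / Real.sqrt p) ^ 2) ^ (-κ) := by
        refine prod_congr rfl fun p hp => ?_
        rw [Real.rpow_neg (hpos p hp).le, Real.inv_rpow (hpos p hp).le]
      rw [e3]
      unfold primes
      rw [prod_filter]
      refine prod_congr rfl fun p hp => ?_
      rw [hu, hv]
      beta_reduce
      by_cases hpS : p ∈ S
      · rw [if_neg fun h => h.2 hpS, if_neg fun h => h.2 hpS, if_neg fun h => h hpS]
        norm_num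
      · rw [if_pos ⟨(hpr p hp).1, hpS⟩, if_pos ⟨(hpr p hp).1, hpS⟩, if_pos hpS, one_mul]
    rw [e1, sum_congr rfl fun S _ => e2 S] at h1
    rw [e1, sum_congr rfl fun S _ => e2 S] at h2
    exact ⟨h0, h1, h2⟩
  refine ⟨c, C, hc, hC, main, ?_⟩
  intro N _ f hf ε hε
  have hH : Pool.Agent.TH941.Hecke f := ⟨hf.one, hf.real, hf.mul, hf.pow, hf.good, hf.bad⟩
  obtain ⟨C₀, hC₀, hC₀'⟩ := Pool.Agent.Q28.BP.sum_inv_loglog
  -- the centre
  have hlam : ∀ p : ℕ, p.Prime → p ∉ N.primeFactors → |eigenvalue f p| ≤ 2 := by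
    intro p hp hpN
    have hp0 : (0 : ℝ) < p := by exact_mod_cast hp.pos
    have hs : 0 < Real.sqrt p := Real.sqrt_pos.2 hp0
    have h1 := hf.good p hp fun hd => hpN (Nat.mem_primeFactors.2 ⟨hp, hd, NeZero.ne N⟩)
    unfold eigenvalue
    rw [abs_div, abs_of_pos hs, div_le_iff₀ hs]
    exact (Complex.abs_re_le_norm _).trans h1
  have hgg : ∀ p : ℕ, p.Prime → Pool.Agent.TH941.gg f p = eigenvalue f p ^ 2 := by
    intro p hp
    have hp0 : (0 : ℝ) < p := by exact_mod_cast hp.pos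
    have h1 : ‖coef f p‖ ^ 2 = (coef f p).re ^ 2 := by
      rw [← Complex.normSq_eq_norm_sq, Complex.normSq_apply, hf.real p]
      ring
    unfold eigenvalue
    rw [div_pow, Real.sq_sqrt hp0.le, ← h1]
    rfl
  obtain ⟨S', hS'⟩ : ∃ S' : Finset ℕ, S' = N.primeFactors ∪ range (β ^ 2 + 1) := ⟨_, rfl⟩
  have hmemS : ∀ x p : ℕ, p ∈ primes β N.primeFactors x ↔ p ∈ range (x + 1) ∧ p.Prime ∧ p ∉ S' := by
    intro x p
    unfold primes primesBetween
    rw [mem_filter, mem_filter, hS', mem_union, mem_range (m := p) (n := β ^ 2 + 1)]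
    constructor
    · rintro ⟨⟨h1, h2, h3⟩, h4⟩
      exact ⟨h1, h2, fun h => h.elim h4 (by omega)⟩
    · rintro ⟨h1, h2, h3⟩
      exact ⟨⟨h1, h2, by by_contra h; exact h3 (Or.inr (by omega))⟩, fun h => h3 (Or.inl h)⟩
  let d : ℕ → ℝ := fun p => if p.Prime ∧ p ∉ S' then (eigenvalue f p ^ 2 - 1) / p else 0
  have hd : ∀ p, p ∉ S' → d p = Pool.Agent.TH941.cr f p := by
    intro p hpS
    simp only [d]
    unfold Pool.Agent.TH941.cr
    by_cases hp : p.Prime
    · rw [if_pos ⟨hp, hpS⟩, if_pos hp, hgg p hp]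
    · rw [if_neg fun h => hp h.1, if_neg hp]
  obtain ⟨Λ, hΛ⟩ : ∃ Λ : ℝ, Λ = |κ * (κ + 1) / 2| + 1 := ⟨_, rfl⟩
  obtain ⟨Λ', hΛ'⟩ : ∃ Λ' : ℝ, Λ' = |κ * (κ - 1) / 2| := ⟨_, rfl⟩
  have hΛ0 : 0 < Λ := by rw [hΛ]; positivity
  have hΛ'0 : 0 ≤ Λ' := by rw [hΛ']; positivity
  have hsm := Pool.Agent.Q28.BP.half_small' hH.half hd (show 0 < ε / (4 * Λ) by positivity)
  have hcen : ∀ x : ℕ, 3 ≤ x → |exponent β (eigenvalue f) N.primeFactors x κ - κ * (κ - 1) / 2 * Real.log (Real.log x)| ≤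
      Λ * |∑ p ∈ range (x + 1), d p| + Λ' * (C₀ + ∑ p ∈ S', 1 / (p : ℝ)) := by
    intro x hx3
    have e0 : primes β N.primeFactors x = (range (x + 1)).filter (fun p => p.Prime ∧ p ∉ S') := by
      ext p
      rw [hmemS x p, mem_filter]
    have e1 : exponent β (eigenvalue f) N.primeFactors x κ = κ * (κ + 1) / 2 * ∑ p ∈ range (x + 1), d p +
        κ * (κ - 1) / 2 * ∑ p ∈ (range (x + 1)).filter (fun p => p.Prime ∧ p ∉ S'), 1 / (p : ℝ) := by
      unfold exponent
      rw [e0, sum_filter, sum_filter, mul_sum, mul_sum, ← sum_add_distrib]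
      refine sum_congr rfl fun p _ => ?_
      simp only [d]
      by_cases h : p.Prime ∧ p ∉ S'
      · rw [if_pos h, if_pos h, if_pos h]
        have hp0 : (p : ℝ) ≠ 0 := by exact_mod_cast h.1.ne_zero
        field_simp
        ring
      · rw [if_neg h, if_neg h, if_neg h]
        ring
    have h5 := hC₀' x hx3
    have e2 : ∑ p ∈ (range (x + 1)).filter Nat.Prime, 1 / (p : ℝ) =
        ∑ p ∈ (range (x + 1)).filter (fun p => p.Prime ∧ p ∉ S'), 1 / (p : ℝ) +
        ∑ p ∈ (range (x + 1)).filter (fun p => p.Prime ∧ p ∈ S'), 1 / (p : ℝ) := by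
      rw [sum_filter, sum_filter, sum_filter, ← sum_add_distrib]
      refine sum_congr rfl fun p _ => ?_
      by_cases hp : p.Prime <;> by_cases hpS : p ∈ S' <;> simp [hp, hpS]
    have h6 : ∑ p ∈ (range (x + 1)).filter (fun p => p.Prime ∧ p ∈ S'), 1 / (p : ℝ) ≤
        ∑ p ∈ S', 1 / (p : ℝ) :=
      sum_le_sum_of_subset_of_nonneg (fun p hp => (mem_filter.1 hp).2.2) fun _ _ _ => by positivity
    have h7 : 0 ≤ ∑ p ∈ (range (x + 1)).filter (fun p => p.Prime ∧ p ∈ S'), 1 / (p : ℝ) :=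
      sum_nonneg fun _ _ => by positivity
    have h8 : |∑ p ∈ (range (x + 1)).filter (fun p => p.Prime ∧ p ∉ S'), 1 / (p : ℝ) - Real.log (Real.log x)| ≤
        C₀ + ∑ p ∈ S', 1 / (p : ℝ) := by
      rw [e2] at h5
      rw [abs_le] at h5 ⊢
      constructor <;> linarith [h5.1, h5.2]
    have e3 : exponent β (eigenvalue f) N.primeFactors x κ - κ * (κ - 1) / 2 * Real.log (Real.log x) =
        κ * (κ + 1) / 2 * ∑ p ∈ range (x + 1), d p + κ * (κ - 1) / 2 *
          (∑ p ∈ (range (x + 1)).filter (fun p => p.Prime ∧ p ∉ S'), 1 / (p : ℝ) - Real.log (Real.log x)) := by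
      rw [e1]
      ring
    rw [e3]
    refine (abs_add_le _ _).trans ?_
    rw [abs_mul, abs_mul (κ * (κ - 1) / 2), ← hΛ']
    have h9 : |κ * (κ + 1) / 2| * |∑ p ∈ range (x + 1), d p| ≤ Λ * |∑ p ∈ range (x + 1), d p| := by
      apply mul_le_mul_of_nonneg_right _ (abs_nonneg _)
      rw [hΛ]
      linarith
    have h10 := mul_le_mul_of_nonneg_left h8 hΛ'0
    linarith
  obtain ⟨X₁, hX₁⟩ := eventually_atTop.1 ((Pool.Agent.Q28.BP.tendsto_loglog.eventually_ge_atTop
    ((Λ' * (C₀ + ∑ p ∈ S', 1 / (p : ℝ)) + |Real.log C|) / (ε / 2))).and hsm)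
  refine ⟨max X₁ 16, fun x K r N₀ g hx hrK hxr hN hg t ht => ?_⟩
  have hx16 : 16 ≤ x := (le_max_right _ _).trans hx
  obtain ⟨k2, k3⟩ := hX₁ x ((le_max_left _ _).trans hx)
  obtain ⟨h0, h1, h2⟩ := main (eigenvalue f) N.primeFactors hlam x K r N₀ g (by omega) hrK hxr hN hg t ht
  have hl1 := Pool.Agent.Q28.BP.loglog_ge_one hx16
  rw [div_le_iff₀ (by positivity)] at k2
  have h4 := hcen x (by omega)
  obtain ⟨E, hE⟩ : ∃ E, E = exponent β (eigenvalue f) N.primeFactors x κ := ⟨_, rfl⟩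
  obtain ⟨V, hV⟩ : ∃ V, V = moment β K r N₀ g (eigenvalue f) N.primeFactors x t κ := ⟨_, rfl⟩
  rw [← hE] at h1 h2 h4
  rw [← hV] at h1 h2 ⊢
  have hV0 : 0 < V := lt_of_lt_of_le (mul_pos (inv_pos.2 hC) (Real.exp_pos _)) h1
  have hlV : |Real.log V - E| ≤ |Real.log C| := by
    have h5 := Real.log_le_log (mul_pos (inv_pos.2 hC) (Real.exp_pos _)) h1
    have h6 := Real.log_le_log hV0 h2
    rw [Real.log_mul (inv_pos.2 hC).ne' (Real.exp_pos _).ne', Real.log_exp, Real.log_inv] at h5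
    rw [Real.log_mul hC.ne' (Real.exp_pos _).ne', Real.log_exp] at h6
    have h7 := neg_abs_le (Real.log C)
    have h8 := le_abs_self (Real.log C)
    rw [abs_le]
    constructor <;> linarith
  have h6 : |Real.log V - κ * (κ - 1) / 2 * Real.log (Real.log x)| ≤ ε * Real.log (Real.log x) := by
    have h7 : Λ * |∑ p ∈ range (x + 1), d p| ≤ ε / 4 * Real.log (Real.log x) := by
      calc Λ * |∑ p ∈ range (x + 1), d p| ≤ Λ * (ε / (4 * Λ) * Real.log (Real.log x)) :=
            mul_le_mul_of_nonneg_left k3 hΛ0.le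
        _ = ε / 4 * Real.log (Real.log x) := by field_simp
    have h8 := abs_le.1 h4
    have h9 := abs_le.1 hlV
    rw [abs_le]
    constructor <;> nlinarith [h8.1, h8.2, h9.1, h9.2]
  exact Pool.Agent.Q28.BP.pow_bounds hV0 (by omega) rfl h6

end Pool.Agent.Results.MP_17f4cb_nt.FewDigitMoments
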