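import Pool.Agent.Q28.BP.Rs
import Pool.Agent.Q28.BP.Both
import Pool.Agent.Q235.FE.Ld

/-!
# Large deviations of the truncated order of vanishing of quadratic twists by integers with few changed digits

Let `f` be a newform of weight two, `π` its cuspidal representation of `PGL₂` and `lam p` its eigenvalues, `|lam p| ≤ 2`. For
an integer `D`

  `P_x(D) = ∏ (1 - lam p χ_D(p) p^{-1/2} + χ_D(p)² p^{-1})⁻¹`

over the primes `β² < p ≤ x` not dividing the level is the Euler product of `L(π ⊗ χ_D, s)` at `s = 1/2`, truncated at `x`.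
If the central value vanishes to the order `k`, then `P_x(D)` should be of the order `(log x)^{-k}`, `x → ∞`; so we call
`-log P_x(D) / log log x` the truncated order of vanishing. Q1 predicts the orders `0` and `1` for one half of the twists
each, and in particular that the order `≥ 2` has density zero.

Let `N₀` be an ARBITRARY integer with at most `K` digits in base `β`, and let `m` arise from `N₀` by changing `r ≤ K / 2` of
its digits, to prescribed digits different from the old ones. We consider the choices of the `r` positions for which `m`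
is not divisible by the square of any prime `β² < p ≤ x` (the free choices). For `D = m` and `D = -m`, `x → ∞` and
`x ≤ c √r` we show:

  the proportion of the free choices with truncated order `≥ ρ` is `(log x)^{-(ρ - 1/2)²/2 + o(1)}` for all `ρ ≥ 1/2`,
  the proportion of the free choices with truncated order `≤ ρ` is `(log x)^{-(ρ - 1/2)²/2 + o(1)}` for all `ρ ≤ 1/2`;

for instance `(log x)^{-9/8 + o(1)}` for the order `≥ 2`.
-/

set_option autoImplicit false

namespace Pool.Agent.Results.MP_17f4cb_nt.FewDigitSmallValues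

open Pool.Agent.Q235.FD (change digit)
open Pool.Agent.Q235.FE (primesBetween freeChoices proportion)
open Filter Topology CongruenceSubgroup UpperHalfPlane
open scoped MatrixGroups Classical
open Finset

/-- The primes `β² < p ≤ x` not in `S`. -/
noncomputable def primes (β : ℕ) (S : Finset ℕ) (x : ℕ) : Finset ℕ := (primesBetween β x).filter fun p => p ∉ S

/-- The truncated central value `P_x(D)`; the values of the character are written as symbols of Jacobi. -/
noncomputable def value (β : ℕ) (lam : ℕ → ℝ) (S : Finset ℕ) (x : ℕ) (D : ℤ) : ℝ :=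
  ∏ p ∈ primes β S x,
    (1 - lam p * ((jacobiSym D p : ℝ) / Real.sqrt p) + ((jacobiSym D p : ℝ) / Real.sqrt p) ^ 2)⁻¹

/-- The `n`-th Fourier coefficient of `f`. -/
noncomputable def coef {N : ℕ} (f : CuspForm (Gamma0 N : Subgroup (GL (Fin 2) ℝ)) 2) (n : ℕ) : ℂ :=
  (qExpansion 1 f).coeff n

/-- `f ∈ S_2(Γ₀(N))` is a normalised newform with trivial nebentypus: the Fourier coefficients `c(n)` are
real with `c(1) = 1`, they satisfy the Hecke relations `c(mn) = c(m) c(n)` for coprime `m`, `n` and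
`c(p^(j+2)) = c(p) c(p^(j+1)) - p c(p^j)` (without the last term if `p ∣ N`), `|c(p)| ≤ 2 √p` for `p ∤ N` and
`|c(p)| ≤ 1` for `p ∣ N`.  (All newforms of weight two have these properties.) -/
structure IsNewform {N : ℕ} (f : CuspForm (Gamma0 N : Subgroup (GL (Fin 2) ℝ)) 2) : Prop where
  one : coef f 1 = 1
  real : ∀ n, (coef f n).im = 0
  mul : ∀ m n : ℕ, Nat.Coprime m n → coef f (m * n) = coef f m * coef f n
  pow : ∀ p j : ℕ, p.Prime → coef f (p ^ (j + 2)) = coef f p * coef f (p ^ (j + 1)) -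
      (if p ∣ N then 0 else (p : ℂ) * coef f (p ^ j))
  good : ∀ p : ℕ, p.Prime → ¬ p ∣ N → ‖coef f p‖ ≤ 2 * Real.sqrt p
  bad : ∀ p : ℕ, p.Prime → p ∣ N → ‖coef f p‖ ≤ 1

/-- The eigenvalues `c(p) / √p`. -/
noncomputable def eigenvalue {N : ℕ} (f : CuspForm (Gamma0 N : Subgroup (GL (Fin 2) ℝ)) 2) (p : ℕ) : ℝ :=
  (coef f p).re / Real.sqrt p

/-- `lam p` for the primes outside `S`, and `0` -/
noncomputable def uu (lam : ℕ → ℝ) (S : Finset ℕ) (p : ℕ) : ℝ := if p.Prime ∧ p ∉ S then lam p else 0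

/-- `1` for the primes outside `S`, and `0` -/
noncomputable def vv (S : Finset ℕ) (p : ℕ) : ℝ := if p.Prime ∧ p ∉ S then 1 else 0

lemma value_eq {β x : ℕ} (hβ : 2 ≤ β) (lam : ℕ → ℝ) (S : Finset ℕ) (D : ℤ) :
    value β lam S x D = (Pool.Agent.Q235.FE.euler β x (uu lam S) (vv S) D)⁻¹ := by
  unfold value Pool.Agent.Q235.FE.euler primes
  rw [← prod_inv_distrib, prod_filter]
  refine prod_congr rfl fun p hp => ?_
  have hpr := (Pool.Agent.Q235.FE.mem_between hβ hp).1
  unfold uu vv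
  by_cases hpS : p ∈ S
  · rw [if_neg (not_not.2 hpS), if_neg fun h => h.2 hpS, if_neg fun h => h.2 hpS]
    norm_num
  · rw [if_pos hpS, if_pos ⟨hpr, hpS⟩, if_pos ⟨hpr, hpS⟩, one_mul]

/-- **Large deviations of the truncated order of vanishing.** Let `β ≥ 2` be a base, `f` a newform of weight two, `ρ` real
and `ε > 0`. There are `c > 0` and `X₀` such that for all `x ≥ X₀`, all integers `N₀` with at most `K` digits in base `β`,
all `r ≤ K / 2` with `x ≤ c √r`, all prescribed new digits `g j` (different from the digits of `N₀`) and `D = m` or `D = -m`,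
`m` the number obtained:

1. if `ρ ≥ 1/2`, the proportion of the free choices of `r` positions with `P_x(D) ≤ (log x)^(-ρ)` is between
   `(log x)^(-(ρ - 1/2)² / 2 - ε)` and `(log x)^(-(ρ - 1/2)² / 2 + ε)`;
2. if `ρ ≤ 1/2`, the same for the proportion of the free choices with `(log x)^(-ρ) ≤ P_x(D)`. -/
theorem result (β : ℕ) (hβ : 2 ≤ β) (N : ℕ) [NeZero N] (f : CuspForm (Gamma0 N : Subgroup (GL (Fin 2) ℝ)) 2)
    (hf : IsNewform f) (ρ ε : ℝ) (hε : 0 < ε) : ∃ (c : ℝ) (X₀ : ℕ), 0 < c ∧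
    ∀ (x K r N₀ : ℕ) (g : ℕ → ℕ), X₀ ≤ x → 2 * r ≤ K → (x : ℝ) ≤ c * Real.sqrt r → N₀ < β ^ K →
      (∀ j, g j < β ∧ g j ≠ digit β j N₀) → ∀ t : ℤ, (t = 1 ∨ t = -1) →
      (1 / 2 ≤ ρ →
        Real.log x ^ (-((ρ - 1 / 2) ^ 2 / 2) - ε) ≤ proportion (freeChoices β K r N₀ g x)
          (fun S => value β (eigenvalue f) N.primeFactors x (t * (change β K N₀ g S : ℕ)) ≤ Real.log x ^ (-ρ)) ∧
        proportion (freeChoices β K r N₀ g x)
          (fun S => value β (eigenvalue f) N.primeFactors x (t * (change β K N₀ g S : ℕ)) ≤ Real.log x ^ (-ρ)) ≤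
          Real.log x ^ (-((ρ - 1 / 2) ^ 2 / 2) + ε)) ∧
      (ρ ≤ 1 / 2 →
        Real.log x ^ (-((ρ - 1 / 2) ^ 2 / 2) - ε) ≤ proportion (freeChoices β K r N₀ g x)
          (fun S => Real.log x ^ (-ρ) ≤ value β (eigenvalue f) N.primeFactors x (t * (change β K N₀ g S : ℕ))) ∧
        proportion (freeChoices β K r N₀ g x)
          (fun S => Real.log x ^ (-ρ) ≤ value β (eigenvalue f) N.primeFactors x (t * (change β K N₀ g S : ℕ))) ≤
          Real.log x ^ (-((ρ - 1 / 2) ^ 2 / 2) + ε)) := by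
  have hH : Pool.Agent.TH941.Hecke f := ⟨hf.one, hf.real, hf.mul, hf.pow, hf.good, hf.bad⟩
  obtain ⟨C₀, hC₀, hC₀'⟩ := Pool.Agent.Q28.BP.sum_inv_loglog
  -- the centre
  have hlam : ∀ p : ℕ, p.Prime → p ∉ N.primeFactors → |eigenvalue f p| ≤ 2 := by
    intro p hp hpN
    have hp0 : (0 : ℝ) < p := by exact_mod_cast hp.pos
    have hs : 0 < Real.sqrt p := Real.sqrt_pos.2 hp0
    have h1 := hf.good p hp fun hd => hpN (Nat.mem_primeFactors.2 ⟨hp, hd, NeZero.ne N⟩)
    unfold eigenvalue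
    rw [abs_div, abs_of_pos hs, div_le_iff₀ hs]
    exact (Complex.abs_re_le_norm _).trans h1
  have hgg : ∀ p : ℕ, p.Prime → Pool.Agent.TH941.gg f p = eigenvalue f p ^ 2 := by
    intro p hp
    have hp0 : (0 : ℝ) < p := by exact_mod_cast hp.pos
    have h1 : ‖coef f p‖ ^ 2 = (coef f p).re ^ 2 := by
      rw [← Complex.normSq_eq_norm_sq, Complex.normSq_apply, hf.real p]
      ring
    unfold eigenvalue
    rw [div_pow, Real.sq_sqrt hp0.le, ← h1]
    rfl
  obtain ⟨S', hS'⟩ : ∃ S' : Finset ℕ, S' = N.primeFactors ∪ range (β ^ 2 + 1) := ⟨_, rfl⟩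
  have hmemS : ∀ x p : ℕ, p ∈ primes β N.primeFactors x ↔ p ∈ range (x + 1) ∧ p.Prime ∧ p ∉ S' := by
    intro x p
    unfold primes primesBetween
    rw [mem_filter, mem_filter, hS', mem_union, mem_range (m := p) (n := β ^ 2 + 1)]
    constructor
    · rintro ⟨⟨h1, h2, h3⟩, h4⟩
      exact ⟨h1, h2, fun h => h.elim h4 (by omega)⟩
    · rintro ⟨h1, h2, h3⟩
      exact ⟨⟨h1, h2, by by_contra h; exact h3 (Or.inr (by omega))⟩, fun h => h3 (Or.inl h)⟩
  let d : ℕ → ℝ := fun p => if p.Prime ∧ p ∉ S' then (eigenvalue f p ^ 2 - 1) / p else 0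
  have hd : ∀ p, p ∉ S' → d p = Pool.Agent.TH941.cr f p := by
    intro p hpS
    simp only [d]
    unfold Pool.Agent.TH941.cr
    by_cases hp : p.Prime
    · rw [if_pos ⟨hp, hpS⟩, if_pos hp, hgg p hp]
    · rw [if_neg fun h => hp h.1, if_neg hp]
  have hu : ∀ (_ : Unit) (p : ℕ), |uu (eigenvalue f) N.primeFactors p| ≤ 1 + vv N.primeFactors p := by
    intro _ p
    unfold uu vv
    split_ifs with hp
    · exact (hlam p hp.1 hp.2).trans (by norm_num)
    · norm_num
  have hv : ∀ (_ : Unit) (p : ℕ), vv N.primeFactors p = 0 ∨ vv N.primeFactors p = 1 := by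
    intro _ p
    unfold vv
    split_ifs
    · exact Or.inr rfl
    · exact Or.inl rfl
  have hX : ∀ κ ε' : ℝ, 0 < ε' → ∃ X₂ : ℕ, ∀ _ : Unit, ∀ x : ℕ, X₂ ≤ x →
      |∑ p ∈ primesBetween β x, (κ * (κ + 1) * (uu (eigenvalue f) N.primeFactors p) ^ 2 / 2 - κ * vv N.primeFactors p) / p -
        (κ ^ 2 / 2 + -(1 / 2) * κ) * Real.log (Real.log x)| ≤ ε' * Real.log (Real.log x) := by
    intro κ ε' hε'
    obtain ⟨Λ, hΛ⟩ : ∃ Λ : ℝ, Λ = |κ * (κ + 1) / 2| + 1 := ⟨_, rfl⟩
    obtain ⟨Λ', hΛ'⟩ : ∃ Λ' : ℝ, Λ' = |κ * (κ - 1) / 2| := ⟨_, rfl⟩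
    have hΛ0 : 0 < Λ := by rw [hΛ]; positivity
    have hΛ'0 : 0 ≤ Λ' := by rw [hΛ']; positivity
    have hsm := Pool.Agent.Q28.BP.half_small' hH.half hd (show 0 < ε' / (4 * Λ) by positivity)
    have hcen : ∀ x : ℕ, 3 ≤ x → |∑ p ∈ primes β N.primeFactors x, (κ * (κ + 1) * eigenvalue f p ^ 2 / 2 - κ) / p - κ * (κ - 1) / 2 * Real.log (Real.log x)| ≤
        Λ * |∑ p ∈ range (x + 1), d p| + Λ' * (C₀ + ∑ p ∈ S', 1 / (p : ℝ)) := by
      intro x hx3
      have e0 : primes β N.primeFactors x = (range (x + 1)).filter (fun p => p.Prime ∧ p ∉ S') := by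
        ext p
        rw [hmemS x p, mem_filter]
      have e1 : ∑ p ∈ primes β N.primeFactors x, (κ * (κ + 1) * eigenvalue f p ^ 2 / 2 - κ) / p = κ * (κ + 1) / 2 * ∑ p ∈ range (x + 1), d p +
          κ * (κ - 1) / 2 * ∑ p ∈ (range (x + 1)).filter (fun p => p.Prime ∧ p ∉ S'), 1 / (p : ℝ) := by
        rw [e0, sum_filter, sum_filter, mul_sum, mul_sum, ← sum_add_distrib]
        refine sum_congr rfl fun p _ => ?_
        simp only [d]
        by_cases h : p.Prime ∧ p ∉ S'
        · rw [if_pos h, if_pos h, if_pos h]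
          have hp0 : (p : ℝ) ≠ 0 := by exact_mod_cast h.1.ne_zero
          field_simp
          ring
        · rw [if_neg h, if_neg h, if_neg h]
          ring
      have h5 := hC₀' x hx3
      have e2 : ∑ p ∈ (range (x + 1)).filter Nat.Prime, 1 / (p : ℝ) =
          ∑ p ∈ (range (x + 1)).filter (fun p => p.Prime ∧ p ∉ S'), 1 / (p : ℝ) +
          ∑ p ∈ (range (x + 1)).filter (fun p => p.Prime ∧ p ∈ S'), 1 / (p : ℝ) := by
        rw [sum_filter, sum_filter, sum_filter, ← sum_add_distrib]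
        refine sum_congr rfl fun p _ => ?_
        by_cases hp : p.Prime <;> by_cases hpS : p ∈ S' <;> simp [hp, hpS]
      have h6 : ∑ p ∈ (range (x + 1)).filter (fun p => p.Prime ∧ p ∈ S'), 1 / (p : ℝ) ≤
          ∑ p ∈ S', 1 / (p : ℝ) :=
        sum_le_sum_of_subset_of_nonneg (fun p hp => (mem_filter.1 hp).2.2) fun _ _ _ => by positivity
      have h7 : 0 ≤ ∑ p ∈ (range (x + 1)).filter (fun p => p.Prime ∧ p ∈ S'), 1 / (p : ℝ) :=
        sum_nonneg fun _ _ => by positivity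
      have h8 : |∑ p ∈ (range (x + 1)).filter (fun p => p.Prime ∧ p ∉ S'), 1 / (p : ℝ) - Real.log (Real.log x)| ≤
          C₀ + ∑ p ∈ S', 1 / (p : ℝ) := by
        rw [e2] at h5
        rw [abs_le] at h5 ⊢
        constructor <;> linarith [h5.1, h5.2]
      have e3 : ∑ p ∈ primes β N.primeFactors x, (κ * (κ + 1) * eigenvalue f p ^ 2 / 2 - κ) / p - κ * (κ - 1) / 2 * Real.log (Real.log x) =
          κ * (κ + 1) / 2 * ∑ p ∈ range (x + 1), d p + κ * (κ - 1) / 2 *
            (∑ p ∈ (range (x + 1)).filter (fun p => p.Prime ∧ p ∉ S'), 1 / (p : ℝ) - Real.log (Real.log x)) := by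
        rw [e1]
        ring
      rw [e3]
      refine (abs_add_le _ _).trans ?_
      rw [abs_mul, abs_mul (κ * (κ - 1) / 2), ← hΛ']
      have h9 : |κ * (κ + 1) / 2| * |∑ p ∈ range (x + 1), d p| ≤ Λ * |∑ p ∈ range (x + 1), d p| := by
        apply mul_le_mul_of_nonneg_right _ (abs_nonneg _)
        rw [hΛ]
        linarith
      have h10 := mul_le_mul_of_nonneg_left h8 hΛ'0
      linarith
    obtain ⟨X₁, hX₁⟩ := eventually_atTop.1 ((Pool.Agent.Q28.BP.tendsto_loglog.eventually_ge_atTop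
      ((Λ' * (C₀ + ∑ p ∈ S', 1 / (p : ℝ))) / (ε' / 2))).and hsm)
    refine ⟨max X₁ 3, fun _ x hx => ?_⟩
    obtain ⟨k2, k3⟩ := hX₁ x ((le_max_left _ _).trans hx)
    rw [div_le_iff₀ (by positivity)] at k2
    have h4 := hcen x ((le_max_right _ _).trans hx)
    have e4 : ∑ p ∈ primesBetween β x, (κ * (κ + 1) * (uu (eigenvalue f) N.primeFactors p) ^ 2 / 2 -
        κ * vv N.primeFactors p) / p = ∑ p ∈ primes β N.primeFactors x, (κ * (κ + 1) * eigenvalue f p ^ 2 / 2 - κ) / p := by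
      unfold primes
      rw [sum_filter]
      refine sum_congr rfl fun p hp => ?_
      have hpr := (Pool.Agent.Q235.FE.mem_between hβ hp).1
      unfold uu vv
      by_cases hpS : p ∈ N.primeFactors
      · rw [if_neg fun h => h.2 hpS, if_neg fun h => h.2 hpS, if_neg fun h => h hpS]
        ring
      · rw [if_pos ⟨hpr, hpS⟩, if_pos ⟨hpr, hpS⟩, if_pos hpS, mul_one]
    have e5 : (κ ^ 2 / 2 + -(1 / 2) * κ) = κ * (κ - 1) / 2 := by ring
    rw [e4, e5]
    have h7 : Λ * |∑ p ∈ range (x + 1), d p| ≤ ε' / 4 * Real.log (Real.log x) := by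
      calc Λ * |∑ p ∈ range (x + 1), d p| ≤ Λ * (ε' / (4 * Λ) * Real.log (Real.log x)) :=
            mul_le_mul_of_nonneg_left k3 hΛ0.le
        _ = ε' / 4 * Real.log (Real.log x) := by field_simp
    have h8 : 0 ≤ ε' / 4 * Real.log (Real.log x) := le_trans (mul_nonneg hΛ0.le (abs_nonneg _)) h7
    linarith
  have big : ∃ (c : ℝ) (X₀ : ℕ), 0 < c ∧ 16 ≤ X₀ ∧ (1 / 2 ≤ ρ → ∀ (x K r N₀ : ℕ) (g : ℕ → ℕ), X₀ ≤ x → 2 * r ≤ K →
      (x : ℝ) ≤ c * Real.sqrt r → N₀ < β ^ K → (∀ j, g j < β ∧ g j ≠ digit β j N₀) → ∀ t : ℤ, (t = 1 ∨ t = -1) →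
        Real.log x ^ (-((ρ - 1 / 2) ^ 2 / 2) - ε) ≤ proportion (freeChoices β K r N₀ g x)
          (fun S => value β (eigenvalue f) N.primeFactors x (t * (change β K N₀ g S : ℕ)) ≤ Real.log x ^ (-ρ)) ∧
        proportion (freeChoices β K r N₀ g x)
          (fun S => value β (eigenvalue f) N.primeFactors x (t * (change β K N₀ g S : ℕ)) ≤ Real.log x ^ (-ρ)) ≤
          Real.log x ^ (-((ρ - 1 / 2) ^ 2 / 2) + ε)) := by
    by_cases hρ : 1 / 2 ≤ ρ
    · obtain ⟨c, X₀, hc, h16, H⟩ := Pool.Agent.Q235.FE.ld_family β hβ (-(1 / 2)) (fun _ : Unit => uu (eigenvalue f) N.primeFactors)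
        (fun _ : Unit => vv N.primeFactors) hu hv hX (-1) (Or.inr rfl) ρ ε (by linarith) hε
      refine ⟨c, X₀, hc, h16, fun _ x K r N₀ g hx hrK hxr hN hg t ht => ?_⟩
      have h1 := H () x K r N₀ g hx hrK hxr hN hg t ht
      have hlx : 0 < Real.log x := Real.log_pos (by exact_mod_cast (by omega : 1 < x))
      have e : (fun S : Finset ℕ => ρ * Real.log (Real.log x) ≤ - -1 * Real.log (Pool.Agent.Q235.FE.euler β x
          (uu (eigenvalue f) N.primeFactors) (vv N.primeFactors) (t * (change β K N₀ g S : ℕ)))) =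
          fun S => value β (eigenvalue f) N.primeFactors x (t * (change β K N₀ g S : ℕ)) ≤ Real.log x ^ (-ρ) := by
        funext S
        obtain ⟨W, hW⟩ : ∃ W, W = Pool.Agent.Q235.FE.euler β x (uu (eigenvalue f) N.primeFactors) (vv N.primeFactors)
          (t * (change β K N₀ g S : ℕ)) := ⟨_, rfl⟩
        have h2 : 0 < W := by
          rw [hW]
          exact Pool.Agent.Q235.FE.euler_pos (x := x) hβ _ _ (hu ()) (hv ()) _
        rw [value_eq hβ, ← hW]
        have h3 : (ρ * Real.log (Real.log x) ≤ - -1 * Real.log W) ↔ (Real.log W⁻¹ ≤ Real.log (Real.log x) * (-ρ)) := by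
          rw [Real.log_inv]
          constructor <;> intro h <;> linarith
        rw [h3, Real.log_le_iff_le_exp (inv_pos.2 h2), Real.rpow_def_of_pos hlx]
      have e2 : (ρ - -1 * -(1 / 2)) ^ 2 = (ρ - 1 / 2) ^ 2 := by ring
      rw [e, e2] at h1
      exact h1
    · exact ⟨1, 16, one_pos, le_rfl, fun h => absurd h hρ⟩
  have small : ∃ (c : ℝ) (X₀ : ℕ), 0 < c ∧ 16 ≤ X₀ ∧ (ρ ≤ 1 / 2 → ∀ (x K r N₀ : ℕ) (g : ℕ → ℕ), X₀ ≤ x → 2 * r ≤ K →
      (x : ℝ) ≤ c * Real.sqrt r → N₀ < β ^ K → (∀ j, g j < β ∧ g j ≠ digit β j N₀) → ∀ t : ℤ, (t = 1 ∨ t = -1) →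
        Real.log x ^ (-((ρ - 1 / 2) ^ 2 / 2) - ε) ≤ proportion (freeChoices β K r N₀ g x)
          (fun S => Real.log x ^ (-ρ) ≤ value β (eigenvalue f) N.primeFactors x (t * (change β K N₀ g S : ℕ))) ∧
        proportion (freeChoices β K r N₀ g x)
          (fun S => Real.log x ^ (-ρ) ≤ value β (eigenvalue f) N.primeFactors x (t * (change β K N₀ g S : ℕ))) ≤
          Real.log x ^ (-((ρ - 1 / 2) ^ 2 / 2) + ε)) := by
    by_cases hρ : ρ ≤ 1 / 2
    · obtain ⟨c, X₀, hc, h16, H⟩ := Pool.Agent.Q235.FE.ld_family β hβ (-(1 / 2)) (fun _ : Unit => uu (eigenvalue f) N.primeFactors)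
        (fun _ : Unit => vv N.primeFactors) hu hv hX 1 (Or.inl rfl) (-ρ) ε (by linarith) hε
      refine ⟨c, X₀, hc, h16, fun _ x K r N₀ g hx hrK hxr hN hg t ht => ?_⟩
      have h1 := H () x K r N₀ g hx hrK hxr hN hg t ht
      have hlx : 0 < Real.log x := Real.log_pos (by exact_mod_cast (by omega : 1 < x))
      have e : (fun S : Finset ℕ => -ρ * Real.log (Real.log x) ≤ -1 * Real.log (Pool.Agent.Q235.FE.euler β x
          (uu (eigenvalue f) N.primeFactors) (vv N.primeFactors) (t * (change β K N₀ g S : ℕ)))) =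
          fun S => Real.log x ^ (-ρ) ≤ value β (eigenvalue f) N.primeFactors x (t * (change β K N₀ g S : ℕ)) := by
        funext S
        obtain ⟨W, hW⟩ : ∃ W, W = Pool.Agent.Q235.FE.euler β x (uu (eigenvalue f) N.primeFactors) (vv N.primeFactors)
          (t * (change β K N₀ g S : ℕ)) := ⟨_, rfl⟩
        have h2 : 0 < W := by
          rw [hW]
          exact Pool.Agent.Q235.FE.euler_pos (x := x) hβ _ _ (hu ()) (hv ()) _
        rw [value_eq hβ, ← hW]
        have h3 : (-ρ * Real.log (Real.log x) ≤ -1 * Real.log W) ↔ (Real.log (Real.log x) * (-ρ) ≤ Real.log W⁻¹) := by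
          rw [Real.log_inv]
          constructor <;> intro h <;> linarith
        rw [h3, Real.le_log_iff_exp_le (inv_pos.2 h2), Real.rpow_def_of_pos hlx]
      have e2 : (-ρ - 1 * -(1 / 2)) ^ 2 = (ρ - 1 / 2) ^ 2 := by ring
      rw [e, e2] at h1
      exact h1
    · exact ⟨1, 16, one_pos, le_rfl, fun h => absurd h hρ⟩
  obtain ⟨c₁, X₁, hc₁, _, H₁⟩ := big
  obtain ⟨c₂, X₂, hc₂, _, H₂⟩ := small
  refine ⟨min c₁ c₂, max X₁ X₂, lt_min hc₁ hc₂, fun x K r N₀ g hx hrK hxr hN hg t ht => ⟨fun h => ?_, fun h => ?_⟩⟩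
  · exact H₁ h x K r N₀ g ((le_max_left _ _).trans hx) hrK
      (hxr.trans (mul_le_mul_of_nonneg_right (min_le_left _ _) (Real.sqrt_nonneg _))) hN hg t ht
  · exact H₂ h x K r N₀ g ((le_max_right _ _).trans hx) hrK
      (hxr.trans (mul_le_mul_of_nonneg_right (min_le_right _ _) (Real.sqrt_nonneg _))) hN hg t ht

end Pool.Agent.Results.MP_17f4cb_nt.FewDigitSmallValues
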