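import Pool.Agent.Q28.BP.Rs
import Pool.Agent.Q28.BP.Both
import Pool.Agent.Q235.FE.Tw

/-!
# Truncated central values of the quadratic twists by integers with few changed digits, uniformly in `π`

Let `π` be a cuspidal representation of `PGL₂` which satisfies the conjecture of Ramanujan, for instance the one of a
holomorphic newform (Deligne), with the eigenvalues `lam p`, real numbers with `|lam p| ≤ 2`, at the unramified primes. For
an integer `D`

  `P_x(D) = ∏_{p ≤ x} (1 - lam p χ_D(p) p^{-1/2} + χ_D(p)² p^{-1})⁻¹`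

is the Euler product of `L(π ⊗ χ_D, s)` at `s = 1/2`, truncated at `x` (the ramified primes of `π` and the primes `2`, `3`
are left out). If the central value vanishes to the order `k`, then `P_x(D)` should be of the order `(log x)^{-k}`, `x → ∞`;
Q1 predicts the orders `0` and `1` for one half of the twists each, the average order is `1/2`.

Let `N₀` be an ARBITRARY integer with at most `K` digits in base `β`, and let `m` arise from `N₀` by changing `r ≤ K / 2` of
its digits, to prescribed digits different from the old ones. We show: for all but a proportion `η` of the choices of the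
`r` positions, `D = m` and `D = -m` satisfy, for ALL `x` with `X₀ ≤ x ≤ exp (c √r)`

1. `log P_x(D) = ∑_{p ≤ x} ((lam p)² - 2)/(2p) + O((log log x)^(5/6))` and `(log x)^(-2) ≤ P_x(D) ≤ (log x)^2`, where `X₀`
   and the constant do not depend on `π`;
2. for the newforms of weight two `(log x)^(-1/2 - ε) ≤ P_x(D) ≤ (log x)^(-1/2 + ε)`: the truncated order is `1/2`.

Here `c` depends only on `β`. The theorem is unconditional.
-/

set_option autoImplicit false

namespace Pool.Agent.Results.MP_17f4cb_nt.FewDigitTwists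

open Pool.Agent.Q235.FD (digit)
open Pool.Agent.Q235.FE (bad bad_mono)
open Filter Topology CongruenceSubgroup UpperHalfPlane
open scoped MatrixGroups Classical
open Finset

/-- The primes `5 ≤ p ≤ x` not in `S`. -/
def primesUpTo (S : Finset ℕ) (x : ℕ) : Finset ℕ :=
  (range (x + 1)).filter fun p => p.Prime ∧ 5 ≤ p ∧ p ∉ S

/-- The truncated central value `P_x(D)`; for squarefree `D` and `p ≠ 2` the value `χ_D(p)` is the symbol of
Legendre, written as the symbol of Jacobi. -/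
noncomputable def value (lam : ℕ → ℝ) (S : Finset ℕ) (D : ℤ) (x : ℕ) : ℝ :=
  ∏ p ∈ primesUpTo S x,
    (1 - lam p * ((jacobiSym D p : ℝ) / Real.sqrt p) + ((jacobiSym D p : ℝ) / Real.sqrt p) ^ 2)⁻¹

/-- `∑_{p ≤ x} ((lam p)² - 2)/(2p)`. -/
noncomputable def centre (lam : ℕ → ℝ) (S : Finset ℕ) (x : ℕ) : ℝ :=
  ∑ p ∈ primesUpTo S x, (lam p ^ 2 - 2) / (2 * p)

/-- The `n`-th Fourier coefficient of `f`. -/
noncomputable def coef {N : ℕ} (f : CuspForm (Gamma0 N : Subgroup (GL (Fin 2) ℝ)) 2) (n : ℕ) : ℂ :=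
  (qExpansion 1 f).coeff n

/-- `f ∈ S_2(Γ₀(N))` is a normalised newform with trivial nebentypus: the Fourier coefficients `c(n)` are
real with `c(1) = 1`, they satisfy the Hecke relations `c(mn) = c(m) c(n)` for coprime `m`, `n` and
`c(p^(j+2)) = c(p) c(p^(j+1)) - p c(p^j)` (without the last term if `p ∣ N`), `|c(p)| ≤ 2 √p` for `p ∤ N` and
`|c(p)| ≤ 1` for `p ∣ N`.  (All newforms of weight two have these properties.) -/
structure IsNewform {N : ℕ} (f : CuspForm (Gamma0 N : Subgroup (GL (Fin 2) ℝ)) 2) : Prop where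
  one : coef f 1 = 1
  real : ∀ n, (coef f n).im = 0
  mul : ∀ m n : ℕ, Nat.Coprime m n → coef f (m * n) = coef f m * coef f n
  pow : ∀ p j : ℕ, p.Prime → coef f (p ^ (j + 2)) = coef f p * coef f (p ^ (j + 1)) -
      (if p ∣ N then 0 else (p : ℂ) * coef f (p ^ j))
  good : ∀ p : ℕ, p.Prime → ¬ p ∣ N → ‖coef f p‖ ≤ 2 * Real.sqrt p
  bad : ∀ p : ℕ, p.Prime → p ∣ N → ‖coef f p‖ ≤ 1

/-- The eigenvalues `c(p) / √p`. -/
noncomputable def eigenvalue {N : ℕ} (f : CuspForm (Gamma0 N : Subgroup (GL (Fin 2) ℝ)) 2) (p : ℕ) : ℝ :=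
  (coef f p).re / Real.sqrt p

theorem value_pos {lam : ℕ → ℝ} {S : Finset ℕ} (h : ∀ p : ℕ, p.Prime → p ∉ S → |lam p| ≤ 2) (D : ℤ)
    {p : ℕ} (hp : p.Prime) (h5 : 5 ≤ p) (hpS : p ∉ S) :
    0 < 1 - lam p * ((jacobiSym D p : ℝ) / Real.sqrt p) + ((jacobiSym D p : ℝ) / Real.sqrt p) ^ 2 := by
  have : Fact p.Prime := ⟨hp⟩
  have h1 := h p hp hpS
  have hp0 : (0 : ℝ) < p := by exact_mod_cast hp.pos
  have h4 : (4 : ℝ) ≤ p := by exact_mod_cast (by omega : 4 ≤ p)
  have hs : 0 < Real.sqrt p := Real.sqrt_pos.2 hp0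
  have hs2 : 2 ≤ Real.sqrt p := by
    rw [show (2 : ℝ) = Real.sqrt 4 by
      rw [show (4 : ℝ) = 2 ^ 2 by norm_num, Real.sqrt_sq (by norm_num)]]
    exact Real.sqrt_le_sqrt h4
  have hz : |(jacobiSym D p : ℝ) / Real.sqrt p| ≤ 1 / 2 := by
    rw [Pool.Agent.Q28.BP.jac_ch, abs_div, abs_of_pos hs, div_le_div_iff₀ hs (by norm_num)]
    have := Pool.Agent.Q28.BP.ch_abs (D : ZMod p)
    nlinarith
  set z := (jacobiSym D p : ℝ) / Real.sqrt p
  have h2 : |lam p * z| ≤ 2 * |z| := by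
    rw [abs_mul]
    exact mul_le_mul_of_nonneg_right h1 (abs_nonneg _)
  have h3 : lam p * z ≤ 2 * |z| := (le_abs_self _).trans h2
  have h6 : z ^ 2 = |z| ^ 2 := (sq_abs z).symm
  have h7 : 0 < (1 - |z|) ^ 2 := by
    have : 0 < 1 - |z| := by linarith
    positivity
  rw [h6]
  nlinarith

theorem set_eq (S : Finset ℕ) (x : ℕ) : primesUpTo S x =
    (range (x + 1)).filter (fun p => p.Prime ∧ p ∉ S ∪ range 5) := by
  unfold primesUpTo
  refine filter_congr fun p _ => ?_
  rw [mem_union, mem_range]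
  constructor
  · rintro ⟨h1, h2, h3⟩
    exact ⟨h1, fun h => h.elim h3 (by omega)⟩
  · rintro ⟨h1, h2⟩
    exact ⟨h1, by by_contra h; exact h2 (Or.inr (by omega)), fun h => h2 (Or.inl h)⟩

theorem log_value {lam : ℕ → ℝ} {S : Finset ℕ} (h : ∀ p : ℕ, p.Prime → p ∉ S → |lam p| ≤ 2)
    {M : ℕ → Matrix (Fin 2) (Fin 2) ℂ} (hM : ∀ p, |lam p| ≤ 2 → Pool.Agent.Q28.BP.EigLe (M p) ∧
    (∀ z : ℂ, (1 - z • M p).det = 1 - lam p * z + z ^ 2) ∧ (M p ^ 2).trace.re = lam p ^ 2 - 2)
    (D : ℤ) (x : ℕ) : 0 < value lam S D x ∧ Real.log (value lam S D x) =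
      -∑ p ∈ (range (x + 1)).filter Nat.Prime, Pool.Agent.Q28.BP.lq (S ∪ range 5) M D p ∧
      centre lam S x = 1 / 2 * ∑ p ∈ (range (x + 1)).filter Nat.Prime,
        Pool.Agent.Q28.BP.ta (S ∪ range 5) M p / p := by
  have hM' : ∀ p : ℕ, p.Prime → p ∉ S ∪ range 5 → Pool.Agent.Q28.BP.EigLe (M p) := fun p hp hpS =>
    (hM p (h p hp fun h' => hpS (mem_union_left _ h'))).1
  have hmem : ∀ p ∈ primesUpTo S x, p.Prime ∧ 5 ≤ p ∧ p ∉ S := fun p hp => (mem_filter.1 hp).2
  refine ⟨?_, ?_, ?_⟩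
  · unfold value
    exact prod_pos fun p hp => inv_pos.2 (value_pos h D (hmem p hp).1 (hmem p hp).2.1 (hmem p hp).2.2)
  · rw [← Pool.Agent.Q28.BP.log_prod_lq hM' (fun p hp => mem_union_right _ (mem_range.2 (by omega))) D x,
      ← Real.log_inv, ← prod_inv_distrib]
    congr 1
    unfold value
    rw [← set_eq]
    refine prod_congr rfl fun p hp => ?_
    congr 1
    obtain ⟨h1, h2, h3⟩ := hmem p hp
    rw [(hM p (h p h1 h3)).2.1]
    have e : (1 : ℂ) - lam p * (((jacobiSym D p : ℝ) / Real.sqrt p : ℝ) : ℂ) +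
        (((jacobiSym D p : ℝ) / Real.sqrt p : ℝ) : ℂ) ^ 2 =
        ((1 - lam p * ((jacobiSym D p : ℝ) / Real.sqrt p) + ((jacobiSym D p : ℝ) / Real.sqrt p) ^ 2 : ℝ) : ℂ) := by
      push_cast
      ring
    rw [e, Complex.norm_real, Real.norm_eq_abs, abs_of_pos (value_pos h D h1 h2 h3)]
  · unfold centre
    rw [set_eq, mul_sum, sum_filter, sum_filter]
    refine sum_congr rfl fun p _ => ?_
    unfold Pool.Agent.Q28.BP.ta
    by_cases hp : p.Prime
    · by_cases hpS : p ∈ S ∪ range 5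
      · rw [if_pos hp, if_pos hpS, if_neg fun h => h.2 hpS]
        ring
      · rw [if_pos hp, if_neg hpS, if_pos ⟨hp, hpS⟩,
          (hM p (h p hp fun h' => hpS (mem_union_left _ h'))).2.2]
        field_simp
    · rw [if_neg hp, if_neg fun h => hp h.1]

theorem centre_le {lam : ℕ → ℝ} {S : Finset ℕ} (h : ∀ p : ℕ, p.Prime → p ∉ S → |lam p| ≤ 2) (x : ℕ) :
    |centre lam S x| ≤ ∑ p ∈ (range (x + 1)).filter Nat.Prime, 1 / (p : ℝ) := by
  unfold centre
  refine (abs_sum_le_sum_abs _ _).trans ?_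
  refine le_trans (sum_le_sum fun p hp => ?_) (sum_le_sum_of_subset_of_nonneg
    (s := primesUpTo S x) (f := fun p : ℕ => 1 / (p : ℝ)) (fun p hp => ?_) fun _ _ _ => by positivity)
  · obtain ⟨h1, _, h3⟩ := (mem_filter.1 hp).2
    have hp0 : (0 : ℝ) < p := by exact_mod_cast h1.pos
    have h4 := h p h1 h3
    rw [abs_div, abs_of_pos (by positivity : (0 : ℝ) < 2 * p), div_le_div_iff₀ (by positivity) hp0, one_mul]
    refine mul_le_mul_of_nonneg_right ?_ hp0.le |>.trans (le_of_eq rfl)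
    have h5 : lam p ^ 2 ≤ 4 := by
      rw [← sq_abs]
      nlinarith [abs_nonneg (lam p)]
    rw [abs_le]
    constructor <;> nlinarith [sq_nonneg (lam p)]
  · obtain ⟨h1, h2, _⟩ := mem_filter.1 hp
    exact mem_filter.2 ⟨h1, h2⟩

/-- **Truncated central values of the twists by integers with few changed digits.** Let `β ≥ 2` be a base. There is `c > 0`
such that:

1. for every `η > 0` there is `X₀` such that for all real numbers `lam p` with `|lam p| ≤ 2` for the primes `p` outside a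
   finite set `S`, all integers `N₀` with at most `K` digits in base `β`, all `r ≤ K / 2` and all prescribed new digits `g j`
   (different from the digits of `N₀`) the following holds for all choices of `r` positions except for a proportion of at
   most `η`: for the number `m` obtained, all `x ≥ X₀` with `log x ≤ c √r` and `D = m` as well as `D = -m`
   `|log P_x(D) - ∑_{p ≤ x} ((lam p)² - 2)/(2p)| ≤ 3 (log log x)^(5/6)` and `(log x)^(-2) ≤ P_x(D) ≤ (log x)^2`;
2. for every newform `f` of weight two and all `ε, η > 0` there is `X₀` such that in the same situation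
   `(log x)^(-1/2 - ε) ≤ P_x(D) ≤ (log x)^(-1/2 + ε)`. -/
theorem result (β : ℕ) (hβ : 2 ≤ β) : ∃ c : ℝ, 0 < c ∧
    (∀ η : ℝ, 0 < η → ∃ X₀ : ℕ, 16 ≤ X₀ ∧ ∀ (lam : ℕ → ℝ) (S : Finset ℕ),
      (∀ p : ℕ, p.Prime → p ∉ S → |lam p| ≤ 2) →
      ∀ (K r N₀ : ℕ) (g : ℕ → ℕ), 2 * r ≤ K → N₀ < β ^ K → (∀ j, g j < β ∧ g j ≠ digit β j N₀) →
        (bad β K r N₀ g (fun m => ∀ x : ℕ, X₀ ≤ x → Real.log x ≤ c * Real.sqrt r →
          ∀ D : ℤ, (D = m ∨ D = -m) →
            |Real.log (value lam S D x) - centre lam S x| ≤ 3 * Real.log (Real.log x) ^ (5 / 6 : ℝ) ∧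
            Real.log x ^ (-2 : ℝ) ≤ value lam S D x ∧ value lam S D x ≤ Real.log x ^ (2 : ℝ)) : ℝ) ≤
          η * (K.choose r : ℝ)) ∧
    ∀ (N : ℕ) [NeZero N] (f : CuspForm (Gamma0 N : Subgroup (GL (Fin 2) ℝ)) 2), IsNewform f →
      ∀ ε η : ℝ, 0 < ε → 0 < η → ∃ X₀ : ℕ,
      ∀ (K r N₀ : ℕ) (g : ℕ → ℕ), 2 * r ≤ K → N₀ < β ^ K → (∀ j, g j < β ∧ g j ≠ digit β j N₀) →
        (bad β K r N₀ g (fun m => ∀ x : ℕ, X₀ ≤ x → Real.log x ≤ c * Real.sqrt r →
          ∀ D : ℤ, (D = m ∨ D = -m) →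
            Real.log x ^ (-(1 / 2) - ε) ≤ value (eigenvalue f) N.primeFactors D x ∧
            value (eigenvalue f) N.primeFactors D x ≤ Real.log x ^ (-(1 / 2) + ε)) : ℝ) ≤
          η * (K.choose r : ℝ) := by
  obtain ⟨c, hc, HM⟩ := Pool.Agent.Q235.FE.matrix_twists β hβ
  have main : ∀ η : ℝ, 0 < η → ∃ X₀ : ℕ, 16 ≤ X₀ ∧ ∀ (lam : ℕ → ℝ) (S : Finset ℕ),
      (∀ p : ℕ, p.Prime → p ∉ S → |lam p| ≤ 2) →
      ∀ (K r N₀ : ℕ) (g : ℕ → ℕ), 2 * r ≤ K → N₀ < β ^ K → (∀ j, g j < β ∧ g j ≠ digit β j N₀) →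
        (bad β K r N₀ g (fun m => ∀ x : ℕ, X₀ ≤ x → Real.log x ≤ c * Real.sqrt r →
          ∀ D : ℤ, (D = m ∨ D = -m) → 0 < value lam S D x ∧
            |Real.log (value lam S D x) - centre lam S x| ≤ 3 * Real.log (Real.log x) ^ (5 / 6 : ℝ)) : ℝ) ≤
          η * (K.choose r : ℝ) := by
    intro η hη
    obtain ⟨X₀, hX₀, H⟩ := HM 2 η hη
    refine ⟨X₀, hX₀, fun lam S h K r N₀ g hr hN hg => ?_⟩
    obtain ⟨M, hM⟩ := Pool.Agent.Q28.BP.exists_twos lam
    refine le_trans ?_ (H (S ∪ range 5) M (fun p hp hpS =>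
      (hM p (h p hp fun h' => hpS (mem_union_left _ h'))).1)
      (fun p hp => mem_union_right _ (mem_range.2 (by omega))) K r N₀ g hr hN hg)
    apply Nat.cast_le.2
    apply bad_mono
    intro m hm x hx hxr D hD
    obtain ⟨t, ht, rfl⟩ : ∃ t : ℤ, (t = 1 ∨ t = -1) ∧ D = t * (m : ℤ) := by
      rcases hD with rfl | rfl
      · exact ⟨1, Or.inl rfl, (one_mul _).symm⟩
      · exact ⟨-1, Or.inr rfl, (neg_one_mul _).symm⟩
    have h1 := hm x hx hxr t ht
    obtain ⟨h2, h3, h4⟩ := log_value h hM (t * (m : ℤ)) x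
    refine ⟨h2, ?_⟩
    rw [h3, h4, ← abs_neg]
    refine le_trans (le_of_eq ?_) h1
    congr 1
    ring
  obtain ⟨C₀, hC₀, hC₀'⟩ := Pool.Agent.Q28.BP.sum_inv_loglog
  refine ⟨c, hc, ?_, ?_⟩
  · intro η hη
    obtain ⟨X₀, hX₀, H⟩ := main η hη
    have hL : Tendsto (fun x : ℕ => Real.log (Real.log (x : ℝ)) ^ (1 / 6 : ℝ)) atTop atTop :=
      (tendsto_rpow_atTop (by norm_num)).comp Pool.Agent.Q28.BP.tendsto_loglog
    obtain ⟨X₁, hX₁⟩ := eventually_atTop.1 ((hL.eventually_ge_atTop (1 / (1 / 4))).and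
      (Pool.Agent.Q28.BP.tendsto_loglog.eventually_ge_atTop (4 * C₀)))
    refine ⟨max X₀ X₁, hX₀.trans (le_max_left _ _), fun lam S h K r N₀ g hr hN hg => ?_⟩
    refine le_trans ?_ (H lam S h K r N₀ g hr hN hg)
    apply Nat.cast_le.2
    apply bad_mono
    intro m hm x hx hxr D hD
    have hx0 := (le_max_left _ _).trans hx
    obtain ⟨h1, h2⟩ := hm x hx0 hxr D hD
    refine ⟨h2, ?_⟩
    obtain ⟨k1, k2⟩ := hX₁ x ((le_max_right _ _).trans hx)
    have hx16 : 16 ≤ x := hX₀.trans hx0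
    have hl1 := Pool.Agent.Q28.BP.loglog_ge_one hx16
    have h3 := Pool.Agent.Q28.BP.small_pow (show (0 : ℝ) < 1 / 4 by norm_num) hl1
      (by norm_num : (1 / 6 : ℝ) + 5 / 6 = 1) k1
    have h4 := centre_le h x
    have h5 := hC₀' x (by omega)
    have h6 : |Real.log (value lam S D x) - 0 * Real.log (Real.log x)| ≤ 2 * Real.log (Real.log x) := by
      rw [zero_mul, sub_zero]
      rw [abs_le] at h2 h4 h5 ⊢
      constructor <;> linarith [h2.1, h2.2, h4.1, h4.2, h5.1, h5.2]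
    have h7 := Pool.Agent.Q28.BP.pow_bounds h1 (by omega) rfl h6
    rw [zero_sub, zero_add] at h7
    exact h7
  · intro N _ f hf ε η hε hη
    have hH : Pool.Agent.TH941.Hecke f := ⟨hf.one, hf.real, hf.mul, hf.pow, hf.good, hf.bad⟩
    obtain ⟨X₀, hX₀, H⟩ := main η hη
    -- the centre
    have hlam : ∀ p : ℕ, p.Prime → p ∉ N.primeFactors → |eigenvalue f p| ≤ 2 := by
      intro p hp hpN
      have hp0 : (0 : ℝ) < p := by exact_mod_cast hp.pos
      have hs : 0 < Real.sqrt p := Real.sqrt_pos.2 hp0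
      have h1 := hf.good p hp fun hd => hpN (Nat.mem_primeFactors.2 ⟨hp, hd, NeZero.ne N⟩)
      unfold eigenvalue
      rw [abs_div, abs_of_pos hs, div_le_iff₀ hs]
      exact (Complex.abs_re_le_norm _).trans h1
    have hgg : ∀ p : ℕ, p.Prime → Pool.Agent.TH941.gg f p = eigenvalue f p ^ 2 := by
      intro p hp
      have hp0 : (0 : ℝ) < p := by exact_mod_cast hp.pos
      have h1 : ‖coef f p‖ ^ 2 = (coef f p).re ^ 2 := by
        rw [← Complex.normSq_eq_norm_sq, Complex.normSq_apply, hf.real p]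
        ring
      unfold eigenvalue
      rw [div_pow, Real.sq_sqrt hp0.le, ← h1]
      rfl
    set S' : Finset ℕ := N.primeFactors ∪ range 5 with hS'
    let d : ℕ → ℝ := fun p => if p.Prime ∧ p ∉ S' then (eigenvalue f p ^ 2 - 1) / p else 0
    have hd : ∀ p, p ∉ S' → d p = Pool.Agent.TH941.cr f p := by
      intro p hpS
      simp only [d]
      unfold Pool.Agent.TH941.cr
      by_cases hp : p.Prime
      · rw [if_pos ⟨hp, hpS⟩, if_pos hp, hgg p hp]
      · rw [if_neg fun h => hp h.1, if_neg hp]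
    have hsm := Pool.Agent.Q28.BP.half_small' hH.half hd (show 0 < ε / 4 by positivity)
    have hcen : ∀ x : ℕ, 3 ≤ x → |centre (eigenvalue f) N.primeFactors x + 1 / 2 * Real.log (Real.log x)| ≤
        |∑ p ∈ range (x + 1), d p| + (C₀ + ∑ p ∈ S', 1 / (p : ℝ)) := by
      intro x hx3
      have e1 : centre (eigenvalue f) N.primeFactors x = 1 / 2 * ∑ p ∈ range (x + 1), d p -
          1 / 2 * ∑ p ∈ (range (x + 1)).filter (fun p => p.Prime ∧ p ∉ S'), 1 / (p : ℝ) := by
        unfold centre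
        rw [set_eq, ← hS', sum_filter, sum_filter, mul_sum, mul_sum, ← sum_sub_distrib]
        refine sum_congr rfl fun p _ => ?_
        simp only [d]
        by_cases h : p.Prime ∧ p ∉ S'
        · rw [if_pos h, if_pos h, if_pos h]
          have hp0 : (p : ℝ) ≠ 0 := by exact_mod_cast h.1.ne_zero
          field_simp
          ring
        · rw [if_neg h, if_neg h, if_neg h]
          ring
      have h5 := hC₀' x hx3
      have e2 : ∑ p ∈ (range (x + 1)).filter Nat.Prime, 1 / (p : ℝ) =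
          ∑ p ∈ (range (x + 1)).filter (fun p => p.Prime ∧ p ∉ S'), 1 / (p : ℝ) +
          ∑ p ∈ (range (x + 1)).filter (fun p => p.Prime ∧ p ∈ S'), 1 / (p : ℝ) := by
        rw [sum_filter, sum_filter, sum_filter, ← sum_add_distrib]
        refine sum_congr rfl fun p _ => ?_
        by_cases hp : p.Prime <;> by_cases hpS : p ∈ S' <;> simp [hp, hpS]
      have h6 : ∑ p ∈ (range (x + 1)).filter (fun p => p.Prime ∧ p ∈ S'), 1 / (p : ℝ) ≤
          ∑ p ∈ S', 1 / (p : ℝ) :=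
        sum_le_sum_of_subset_of_nonneg (fun p hp => (mem_filter.1 hp).2.2) fun _ _ _ => by positivity
      have h7 : 0 ≤ ∑ p ∈ (range (x + 1)).filter (fun p => p.Prime ∧ p ∈ S'), 1 / (p : ℝ) :=
        sum_nonneg fun _ _ => by positivity
      have h8 := neg_abs_le (∑ p ∈ range (x + 1), d p)
      have h9 := le_abs_self (∑ p ∈ range (x + 1), d p)
      rw [e2] at h5
      rw [abs_le] at h5 ⊢
      constructor <;> linarith [h5.1, h5.2]
    have hL : Tendsto (fun x : ℕ => Real.log (Real.log (x : ℝ)) ^ (1 / 6 : ℝ)) atTop atTop :=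
      (tendsto_rpow_atTop (by norm_num)).comp Pool.Agent.Q28.BP.tendsto_loglog
    obtain ⟨X₁, hX₁⟩ := eventually_atTop.1 ((hL.eventually_ge_atTop (1 / (ε / 8))).and
      ((Pool.Agent.Q28.BP.tendsto_loglog.eventually_ge_atTop ((C₀ + ∑ p ∈ S', 1 / (p : ℝ)) / (ε / 4))).and hsm))
    refine ⟨max X₀ X₁, fun K r N₀ g hr hNK hg => ?_⟩
    refine le_trans ?_ (H (eigenvalue f) N.primeFactors hlam K r N₀ g hr hNK hg)
    apply Nat.cast_le.2
    apply bad_mono
    intro m hm x hx hxr D hD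
    have hx0 := (le_max_left _ _).trans hx
    obtain ⟨h1, h2⟩ := hm x hx0 hxr D hD
    obtain ⟨k1, k2, k3⟩ := hX₁ x ((le_max_right _ _).trans hx)
    have hx16 : 16 ≤ x := hX₀.trans hx0
    have hl1 := Pool.Agent.Q28.BP.loglog_ge_one hx16
    have h3 := Pool.Agent.Q28.BP.small_pow (show (0 : ℝ) < ε / 8 by positivity) hl1
      (by norm_num : (1 / 6 : ℝ) + 5 / 6 = 1) k1
    rw [div_le_iff₀ (by positivity)] at k2
    have h4 := hcen x (by omega)
    have h6 : |Real.log (value (eigenvalue f) N.primeFactors D x) - -(1 / 2) * Real.log (Real.log x)| ≤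
        ε * Real.log (Real.log x) := by
      have e : Real.log (value (eigenvalue f) N.primeFactors D x) - -(1 / 2) * Real.log (Real.log x) =
          (Real.log (value (eigenvalue f) N.primeFactors D x) - centre (eigenvalue f) N.primeFactors x) +
          (centre (eigenvalue f) N.primeFactors x + 1 / 2 * Real.log (Real.log x)) := by ring
      rw [e]
      refine (abs_add_le _ _).trans ?_
      nlinarith
    exact Pool.Agent.Q28.BP.pow_bounds h1 (by omega) rfl h6

end Pool.Agent.Results.MP_17f4cb_nt.FewDigitTwists
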