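import Pool.Agent.Q18.TwistL
import Pool.Agent.Q18.Count

/-!
# The non-vanishing ratio `N_π(x)/N(x)` tends to `0` for odd Hecke–Maass forms of level one
-/

set_option autoImplicit false

open Filter Topology

namespace Pool.Agent.Results.MP_17f4cb_nt.OddMaassForms

open Pool.Agent.Q18

/-- There is a cuspidal representation `π'` of `PGL(2)` over `ℚ` (the one generated by an odd
Hecke–Maass cusp form of level one) for which `N_π'(x) / N(x)` does not tend to `1/2`; indeed, for
every odd Hecke–Maass form of level one, every quadratic twist has an entire `L`-function which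
vanishes at `1/2`, so that `N_π'(x) = 0` for every `x` and the ratio tends to `0`. -/
theorem result :
    (∃ π : HeckeMaassForm, π.IsOdd) ∧
    ∀ π : HeckeMaassForm, π.IsOdd →
      (∀ E : QuadExt, ∃! L : ℂ → ℂ, IsTwistedL π E.char L) ∧
      (∀ E : QuadExt, ∀ L : ℂ → ℂ, IsTwistedL π E.char L → L (1 / 2) = 0) ∧
      (∀ x : ℝ, countNonvanishing π x = 0) ∧
      Tendsto countAll atTop atTop ∧
      Tendsto (fun x : ℝ => (countNonvanishing π x : ℝ) / countAll x) atTop (𝓝 0) ∧
      ¬ Tendsto (fun x : ℝ => (countNonvanishing π x : ℝ) / countAll x) atTop (𝓝 (1 / 2)) := by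
  refine ⟨exists_odd, fun π hodd => ?_⟩
  have hE : ∀ E : QuadExt, ∃ L : ℂ → ℂ, IsTwistedL π E.char L ∧ L (1 / 2) = 0 := by
    intro E
    have : NeZero E.absDisc := ⟨E.pos.ne'⟩
    exact twist_L π hodd E.char E.primitive E.quadratic
  have hz : ∀ E : QuadExt, ∀ L : ℂ → ℂ, IsTwistedL π E.char L → L (1 / 2) = 0 := by
    intro E L hL
    obtain ⟨L', hL', h0⟩ := hE E
    rw [hL.unique hL']; exact h0
  have hN : ∀ x : ℝ, countNonvanishing π x = 0 := by
    intro x
    have : {E : QuadExt | (E.absDisc : ℝ) < x ∧ ∃ L : ℂ → ℂ, IsTwistedL π E.char L ∧ L (1 / 2) ≠ 0} = ∅ := by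
      ext E
      simp only [Set.mem_ofPred_eq, Set.mem_empty_iff_false, iff_false]
      rintro ⟨-, L, hL, hne⟩
      exact hne (hz E L hL)
    rw [countNonvanishing, this, Set.ncard_empty]
  have hlim : Tendsto (fun x : ℝ => (countNonvanishing π x : ℝ) / countAll x) atTop (𝓝 0) := by
    simp only [hN, Nat.cast_zero, zero_div]
    exact tendsto_const_nhds
  refine ⟨fun E => ?_, hz, hN, tendsto_countAll, hlim, fun h => ?_⟩
  · obtain ⟨L, hL, -⟩ := hE E
    exact ⟨L, hL, fun L' hL' => hL'.unique hL⟩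
  · have := tendsto_nhds_unique hlim h
    norm_num at this

end Pool.Agent.Results.MP_17f4cb_nt.OddMaassForms
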